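import Mathlib

/-!
# Skew-symmetric sequences on `ZMod v`, `v = 2 ^ n - 1` (MP_2050e9)

`U : ZMod v → ℤ` has values `1, -1`, `U (-x) = -U x` for `x ≠ 0`, autocorrelation `-1` and the
triple correlations of a span-`n` sequence: impossible for `n ≥ 4`.

* Windows: the triple sums at `{0, a, b}` and at the reversed set give
  `U 0 (U a U b - U a U (b - a) + U b U (b - a)) = -1`; so `U 0 = -1`, `U 1 = U 2 = U 3`.
* `n` odd: `w = U` off `0`, `w 0 = 0`: `w * w = 1 - v δ`, `w * w * w = - v w`, and the cube is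
  `∑ w x [3 x]` modulo `3`: `U 3 = - U 1`.
* `n` even: `3` divides `v`; push `w * w` forward to `ZMod 3`: `3 b ^ 2 = v`, impossible mod `8`.
-/

namespace Pool.Agent.GolK

/-! ### Sums and a map of order three -/

theorem sum_noFix {α : Type} [DecidableEq α] (σ : α → α) (h : ∀ p, σ (σ (σ p)) = p)
    (F : α → ℤ) (hF : ∀ p, F (σ p) = F p) : ∀ S : Finset α, (∀ p ∈ S, σ p ∈ S) →
    (∀ p ∈ S, σ p ≠ p) → (3 : ℤ) ∣ ∑ p ∈ S, F p := by
  intro S
  induction S using Finset.strongInduction with
  | H S ih =>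
    intro hcl hnf
    rcases S.eq_empty_or_nonempty with rfl | ⟨p, hp⟩
    · simp
    have h1 : σ p ∈ S := hcl p hp
    have h2 : σ (σ p) ∈ S := hcl _ h1
    have n1 : σ p ≠ p := hnf p hp
    have n2 : σ (σ p) ≠ σ p := hnf _ h1
    have n3 : σ (σ p) ≠ p := by
      intro e
      have := hnf _ h2
      rw [h] at this
      exact this e.symm
    set T : Finset α := {p, σ p, σ (σ p)} with hT
    have hTS : T ⊆ S := by
      intro q hq
      rw [hT] at hq
      simp only [Finset.mem_insert, Finset.mem_singleton] at hq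
      rcases hq with rfl | rfl | rfl <;> assumption
    have hsum : ∑ q ∈ T, F q = 3 * F p := by
      rw [hT, Finset.sum_insert, Finset.sum_insert, Finset.sum_singleton, hF, hF, hF]
      · ring
      · simp only [Finset.mem_singleton]
        exact fun e => n2 e.symm
      · simp only [Finset.mem_insert, Finset.mem_singleton, not_or]
        exact ⟨fun e => n1 e.symm, fun e => n3 e.symm⟩
    rw [← Finset.sum_sdiff hTS, hsum]
    refine dvd_add (ih (S \ T) ?_ ?_ ?_) (dvd_mul_right _ _)
    · refine Finset.sdiff_ssubset hTS ⟨p, ?_⟩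
      rw [hT]
      simp
    · intro q hq
      rw [Finset.mem_sdiff] at hq ⊢
      refine ⟨hcl q hq.1, fun hm => hq.2 ?_⟩
      rw [hT] at hm ⊢
      simp only [Finset.mem_insert, Finset.mem_singleton] at hm ⊢
      rcases hm with e | e | e
      · right; right
        rw [← e, h]
      · left
        have := congrArg (fun z => σ (σ z)) e
        simpa only [h] using this
      · right; left
        rw [← h q, e, h]
    · intro q hq
      exact hnf q (Finset.mem_sdiff.1 hq).1

theorem sum_mod3 {α : Type} [Fintype α] [DecidableEq α] (σ : α → α) (h : ∀ p, σ (σ (σ p)) = p)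
    (F : α → ℤ) (hF : ∀ p, F (σ p) = F p) :
    (3 : ℤ) ∣ ∑ p, F p - ∑ p ∈ Finset.univ.filter (fun p => σ p = p), F p := by
  have h1 := sum_noFix σ h F hF (Finset.univ.filter fun p => ¬ σ p = p) ?_ ?_
  · rw [← Finset.sum_filter_add_sum_filter_not Finset.univ (fun p => σ p = p) F]
    rwa [add_sub_cancel_left]
  · intro p hp
    rw [Finset.mem_filter] at hp ⊢
    refine ⟨Finset.mem_univ _, fun e => hp.2 ?_⟩
    have := congrArg (fun z => σ (σ z)) e
    simp only [h] at this
    exact this
  · intro p hp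
    exact (Finset.mem_filter.1 hp).2

/-! ### The windows -/

section

variable {v : ℕ} [NeZero v] (U : ZMod v → ℤ)

theorem rev_sum (hsk : ∀ x, x ≠ 0 → U (-x) = -U x) {a b : ZMod v} (ha : a ≠ 0) (hb : b ≠ 0)
    (hab : a ≠ b) :
    ∑ x, U x * U (x + (b - a)) * U (x + b) + ∑ x, U x * U (x + a) * U (x + b) =
      2 * U 0 * (U a * U b - U a * U (b - a) + U b * U (b - a)) := by
  have hba : b - a ≠ 0 := sub_ne_zero.2 hab.symm
  have e1 : ∑ x, U x * U (x + (b - a)) * U (x + b) =
      ∑ x, U (-(x + b)) * U (-(x + a)) * U (-x) := by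
    rw [← Equiv.sum_comp ((Equiv.neg (ZMod v)).trans (Equiv.subRight b))]
    refine Finset.sum_congr rfl fun x _ => ?_
    simp only [Equiv.trans_apply, Equiv.neg_apply, Equiv.subRight_apply]
    congr 1
    · congr 1
      · congr 1
        ring
      · congr 1
        ring
    · congr 1
      ring
  have hA : U (-a) = -U a := hsk a ha
  have hB : U (-b) = -U b := hsk b hb
  have hC : U (a - b) = -U (b - a) := by
    rw [← hsk (b - a) hba]
    congr 1
    ring
  have key : ∀ x : ZMod v, U (-(x + b)) * U (-(x + a)) * U (-x) + U x * U (x + a) * U (x + b) =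
      (if x = 0 then 2 * U 0 * (U a * U b) else 0) +
      (if x = -a then 2 * U 0 * (U (-a) * U (b - a)) else 0) +
      (if x = -b then 2 * U 0 * (U (-b) * U (a - b)) else 0) := by
    intro x
    by_cases h0 : x = 0
    · subst h0
      rw [if_pos rfl, if_neg (fun e => ha (by rw [← neg_eq_zero]; exact e.symm)),
        if_neg (fun e => hb (by rw [← neg_eq_zero]; exact e.symm))]
      simp only [zero_add, neg_zero, hA, hB]
      ring
    by_cases h1 : x = -a
    · subst h1
      have hn : -a ≠ -b := fun e => hab (neg_injective e)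
      rw [if_neg h0, if_pos rfl, if_neg hn]
      have t1 : -(-a + b) = a - b := by ring
      have t2 : -a + b = b - a := by ring
      rw [t1, neg_add_cancel, neg_zero, neg_neg, t2, hC, hA]
      ring
    by_cases h2 : x = -b
    · subst h2
      rw [if_neg h0, if_neg h1, if_pos rfl]
      have t1 : -(-b + a) = b - a := by ring
      have t2 : -b + a = a - b := by ring
      rw [t1, neg_add_cancel, neg_zero, neg_neg, t2, hC, hB]
      ring
    · rw [if_neg h0, if_neg h1, if_neg h2]
      have g1 : x + a ≠ 0 := fun e => h1 (eq_neg_of_add_eq_zero_left e)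
      have g2 : x + b ≠ 0 := fun e => h2 (eq_neg_of_add_eq_zero_left e)
      rw [hsk _ g1, hsk _ g2, hsk _ h0]
      ring
  rw [e1, ← Finset.sum_add_distrib, Finset.sum_congr rfl fun x _ => key x,
    Finset.sum_add_distrib, Finset.sum_add_distrib, Finset.sum_ite_eq', Finset.sum_ite_eq',
    Finset.sum_ite_eq', if_pos (Finset.mem_univ _), if_pos (Finset.mem_univ _),
    if_pos (Finset.mem_univ _), hA, hB, hC]
  ring

/-- `U` with the value at `0` changed to `0`. -/
def w (x : ZMod v) : ℤ := if x = 0 then 0 else U x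

variable {U}

omit [NeZero v] in
theorem w_neg (hsk : ∀ x, x ≠ 0 → U (-x) = -U x) (x : ZMod v) : w U (-x) = -w U x := by
  unfold w
  by_cases h : x = 0
  · subst h
    simp
  · rw [if_neg h, if_neg (by rwa [neg_eq_zero]), hsk x h]

theorem sum_w (hsk : ∀ x, x ≠ 0 → U (-x) = -U x) : ∑ x, w U x = 0 := by
  have h : ∑ x, w U x = - ∑ x, w U x := by
    conv_lhs => rw [← Equiv.sum_comp (Equiv.neg (ZMod v))]
    rw [← Finset.sum_neg_distrib]
    exact Finset.sum_congr rfl fun x _ => w_neg hsk x
  omega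

theorem corr_gen (h1 : ∀ x, U x * U x = 1) (d : ZMod v) :
    ∑ x, w U x * w U (x + d) = ∑ x, U x * U (x + d) - U 0 * U d - U (-d) * U 0 +
      (if d = 0 then 1 else 0) := by
  have key : ∀ x : ZMod v, w U x * w U (x + d) = U x * U (x + d) -
      (if x = 0 then U 0 * U d else 0) - (if x = -d then U (-d) * U 0 else 0) +
      (if x = 0 then (if d = 0 then 1 else 0) else 0) := by
    intro x
    unfold w
    by_cases h0 : x = 0
    · subst h0
      by_cases hd : d = 0
      · subst hd
        simp [h1]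
      · have hd' : (0 : ZMod v) ≠ -d := fun e => hd (by rw [← neg_eq_zero]; exact e.symm)
        simp [hd, hd']
    by_cases hx : x = -d
    · subst hx
      have hd : d ≠ 0 := fun e => h0 (by rw [e, neg_zero])
      simp [hd]
    · have hx' : x + d ≠ 0 := fun e => hx (eq_neg_of_add_eq_zero_left e)
      simp [h0, hx, hx']
  rw [Finset.sum_congr rfl fun x _ => key x, Finset.sum_add_distrib, Finset.sum_sub_distrib,
    Finset.sum_sub_distrib, Finset.sum_ite_eq', Finset.sum_ite_eq', Finset.sum_ite_eq',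
    if_pos (Finset.mem_univ _), if_pos (Finset.mem_univ _), if_pos (Finset.mem_univ _)]

/-- A two-level sequence with an anti-multiplier is skew-symmetric. -/
theorem skew_of_anti (h1 : ∀ x, U x * U x = 1)
    (h2 : ∀ t : ZMod v, t ≠ 0 → ∑ x, U x * U (x + t) = -1) {r : ZMod v} (hr : IsUnit r)
    (ha : ∀ x, x ≠ 0 → U (r * x) = -U x) : ∀ x, x ≠ 0 → U (-x) = -U x := by
  obtain ⟨q, rfl⟩ := hr
  have hw : ∀ x, w U ((q : ZMod v) * x) = - w U x := by
    intro x
    unfold w
    by_cases h : x = 0
    · subst h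
      simp
    · rw [if_neg h, if_neg (fun e => h ((Units.mul_right_eq_zero q).1 e)), ha x h]
  intro t ht
  have hqt : (q : ZMod v) * t ≠ 0 := fun e => ht ((Units.mul_right_eq_zero q).1 e)
  have e1 : ∑ x, w U x * w U (x + (q : ZMod v) * t) = ∑ x, w U x * w U (x + t) := by
    rw [← Equiv.sum_comp (Units.mulLeft q)]
    refine Finset.sum_congr rfl fun x _ => ?_
    simp only [Units.mulLeft_apply]
    rw [← mul_add, hw, hw]
    ring
  rw [corr_gen h1, corr_gen h1, h2 _ hqt, h2 _ ht, if_neg hqt, if_neg ht, ← mul_neg, ha t ht,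
    ha (-t) (by rwa [neg_ne_zero])] at e1
  have h0 := mul_self_eq_one_iff.1 (h1 0)
  rcases h0 with h0 | h0 <;> rw [h0] at e1 <;> linarith

theorem corr_w (h1 : ∀ x, U x * U x = 1) (hsk : ∀ x, x ≠ 0 → U (-x) = -U x)
    (h2 : ∀ t : ZMod v, t ≠ 0 → ∑ x, U x * U (x + t) = -1) (d : ZMod v) :
    ∑ x, w U x * w U (x + d) = if d = 0 then (v : ℤ) - 1 else -1 := by
  rw [corr_gen h1]
  by_cases hd : d = 0
  · subst hd
    simp only [add_zero, neg_zero, if_true, h1, Finset.sum_const, Finset.card_univ, ZMod.card,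
      nsmul_eq_mul, mul_one]
    ring
  · rw [h2 d hd, if_neg hd, if_neg hd, hsk d hd]
    ring

theorem conv_w (h1 : ∀ x, U x * U x = 1) (hsk : ∀ x, x ≠ 0 → U (-x) = -U x)
    (h2 : ∀ t : ZMod v, t ≠ 0 → ∑ x, U x * U (x + t) = -1) (t : ZMod v) :
    ∑ x, w U x * w U (t - x) = if t = 0 then 1 - (v : ℤ) else 1 := by
  have h : ∑ x, w U x * w U (t - x) = - ∑ x, w U x * w U (x + -t) := by
    rw [← Finset.sum_neg_distrib]
    refine Finset.sum_congr rfl fun x _ => ?_
    rw [show t - x = -(x + -t) by ring, w_neg hsk]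
    ring
  rw [h, corr_w h1 hsk h2]
  by_cases ht : t = 0
  · subst ht
    simp
  · rw [if_neg (by rwa [neg_eq_zero]), if_neg ht]
    norm_num

/-- `3` is coprime to `v`: `w 3 = - w 1`. -/
theorem w_three (h1 : ∀ x, U x * U x = 1) (hsk : ∀ x, x ≠ 0 → U (-x) = -U x)
    (h2 : ∀ t : ZMod v, t ≠ 0 → ∑ x, U x * U (x + t) = -1) (hv : v % 3 = 1) (hv4 : 4 ≤ v) :
    U 3 = -U 1 := by
  have h10 : (1 : ZMod v) ≠ 0 := by
    intro e
    have := (ZMod.natCast_eq_zero_iff 1 v).1 (by exact_mod_cast e)
    have := Nat.le_of_dvd one_pos this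
    omega
  have h30 : (3 : ZMod v) ≠ 0 := by
    intro e
    have := (ZMod.natCast_eq_zero_iff 3 v).1 (by exact_mod_cast e)
    have := Nat.le_of_dvd (by norm_num) this
    omega
  have hu : IsUnit (3 : ZMod v) := by
    have h := (ZMod.isUnit_iff_coprime 3 v).2
      ((Nat.Prime.coprime_iff_not_dvd Nat.prime_three).2 (by omega))
    exact_mod_cast h
  let σ : ZMod v × ZMod v → ZMod v × ZMod v := fun p => (p.2, 3 - p.1 - p.2)
  let F : ZMod v × ZMod v → ℤ := fun p => w U p.1 * w U p.2 * w U (3 - p.1 - p.2)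
  have hσ : ∀ p, σ (σ (σ p)) = p := by
    intro p
    simp only [σ]
    ext
    · simp
    · simp only
      ring
  have hF : ∀ p, F (σ p) = F p := by
    intro p
    simp only [σ, F]
    rw [show 3 - p.2 - (3 - p.1 - p.2) = p.1 by ring]
    ring
  have h3 := sum_mod3 σ hσ F hF
  have hfix : Finset.univ.filter (fun p => σ p = p) = {((1 : ZMod v), (1 : ZMod v))} := by
    ext p
    simp only [Finset.mem_filter, Finset.mem_univ, true_and, Finset.mem_singleton, σ]
    constructor
    · intro e
      have e1 : p.2 = p.1 := congrArg Prod.fst e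
      have e2 : 3 - p.1 - p.2 = p.2 := congrArg Prod.snd e
      rw [e1] at e2
      have e3 : 3 * p.1 = 3 * 1 := by
        rw [mul_one]
        have e4 : (3 : ZMod v) = p.1 + p.1 + p.1 := by
          rw [sub_sub, sub_eq_iff_eq_add] at e2
          rw [e2]
          ring
        conv_rhs => rw [e4]
        ring
      have e5 := hu.mul_left_cancel e3
      ext
      · exact e5
      · exact e1.trans e5
    · rintro rfl
      ext
      · rfl
      · simp only
        ring
  have hsum : ∑ p, F p = -(v : ℤ) * w U 3 := by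
    rw [Fintype.sum_prod_type]
    have e1 : ∀ x : ZMod v, ∑ y, F (x, y) = w U x - (if x = 3 then (v : ℤ) * w U 3 else 0) := by
      intro x
      have e2 : ∑ y, F (x, y) = w U x * ∑ y, w U y * w U (3 - x - y) := by
        rw [Finset.mul_sum]
        exact Finset.sum_congr rfl fun y _ => by simp only [F]; ring
      rw [e2, conv_w h1 hsk h2]
      by_cases hx : x = 3
      · subst hx
        rw [if_pos (sub_self _), if_pos rfl]
        ring
      · rw [if_neg (fun e => hx (sub_eq_zero.1 e).symm), if_neg hx]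
        ring
    rw [Finset.sum_congr rfl fun x _ => e1 x, Finset.sum_sub_distrib, sum_w hsk,
      Finset.sum_ite_eq', if_pos (Finset.mem_univ _)]
    ring
  rw [hfix, Finset.sum_singleton, hsum] at h3
  have hw1 : w U 1 = U 1 := if_neg h10
  have hw3 : w U 3 = U 3 := if_neg h30
  have e1 : F (1, 1) = U 1 := by
    simp only [F]
    rw [show (3 : ZMod v) - 1 - 1 = 1 by ring, hw1, h1, one_mul]
  rw [e1, hw3] at h3
  have a1 : U 1 = 1 ∨ U 1 = -1 := mul_self_eq_one_iff.1 (h1 1)
  have a3 : U 3 = 1 ∨ U 3 = -1 := mul_self_eq_one_iff.1 (h1 3)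
  rcases a1 with a1 | a1 <;> rcases a3 with a3 | a3 <;> rw [a1, a3] at h3 ⊢ <;> omega


/-- `3` divides `v`: `v = 3 b ^ 2`. -/
theorem three_dvd (h1 : ∀ x, U x * U x = 1) (hsk : ∀ x, x ≠ 0 → U (-x) = -U x)
    (h2 : ∀ t : ZMod v, t ≠ 0 → ∑ x, U x * U (x + t) = -1) (m : ℕ) (hv : v = 3 * m) :
    ∃ b : ℤ, (v : ℤ) = 3 * b ^ 2 := by
  have h3 : 3 ∣ v := ⟨m, hv⟩
  let f : ZMod v →+* ZMod 3 := ZMod.castHom h3 (ZMod 3)
  let b : ZMod 3 → ℤ := fun j => ∑ x, if f x = j then w U x else 0
  have hb : ∀ j, b (-j) = -b j := by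
    intro j
    simp only [b]
    rw [← Equiv.sum_comp (Equiv.neg (ZMod v)), ← Finset.sum_neg_distrib]
    refine Finset.sum_congr rfl fun x _ => ?_
    simp only [Equiv.neg_apply, map_neg, neg_inj, w_neg hsk]
    split_ifs <;> simp
  have hcard : ∑ t : ZMod v, (if f t = 0 then (1 : ℤ) else 0) = m := by
    have e1 : ∑ t : ZMod v, (if f t = 0 then (1 : ℤ) else 0) =
        ∑ i ∈ Finset.range v, (if ((i : ℕ) : ZMod 3) = 0 then (1 : ℤ) else 0) := by
      symm
      refine Finset.sum_nbij' (fun i => (i : ZMod v)) (fun x => x.val) ?_ ?_ ?_ ?_ ?_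
      · intro i _
        exact Finset.mem_univ _
      · intro x _
        exact Finset.mem_range.2 (ZMod.val_lt x)
      · intro i hi
        exact ZMod.val_cast_of_lt (Finset.mem_range.1 hi)
      · intro x _
        exact ZMod.natCast_zmod_val x
      · intro i _
        rw [map_natCast]
    rw [e1, hv]
    clear * -
    induction m with
    | zero => simp
    | succ m ih =>
      rw [show 3 * (m + 1) = 3 * m + 1 + 1 + 1 by ring, Finset.sum_range_succ,
        Finset.sum_range_succ, Finset.sum_range_succ, ih]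
      have c0 : (((3 * m : ℕ)) : ZMod 3) = 0 := by
        rw [ZMod.natCast_eq_zero_iff]
        exact dvd_mul_right _ _
      have c1 : ¬ (((3 * m + 1 : ℕ)) : ZMod 3) = 0 := by
        rw [ZMod.natCast_eq_zero_iff]
        omega
      have c2 : ¬ (((3 * m + 1 + 1 : ℕ)) : ZMod 3) = 0 := by
        rw [ZMod.natCast_eq_zero_iff]
        omega
      rw [if_pos c0, if_neg c1, if_neg c2]
      push_cast
      ring
  have hS1 : ∑ x : ZMod v, ∑ y : ZMod v, (if f (x + y) = 0 then w U x * w U y else 0) =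
      - (b 0 ^ 2 + b 1 ^ 2 + b 2 ^ 2) := by
    have e1 : ∀ x : ZMod v, ∑ y : ZMod v, (if f (x + y) = 0 then w U x * w U y else 0) =
        ∑ j : ZMod 3, (if f x = j then w U x * b (-j) else 0) := by
      intro x
      rw [Finset.sum_ite_eq, if_pos (Finset.mem_univ _)]
      simp only [b]
      rw [Finset.mul_sum]
      refine Finset.sum_congr rfl fun y _ => ?_
      rw [map_add]
      by_cases hy : f y = -f x
      · rw [if_pos hy, if_pos (by rw [hy, add_neg_cancel])]
      · rw [if_neg hy, if_neg (fun e => hy (eq_neg_of_add_eq_zero_right e)), mul_zero]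
    rw [Finset.sum_congr rfl fun x _ => e1 x, Finset.sum_comm]
    have e2 : ∀ j : ZMod 3, ∑ x : ZMod v, (if f x = j then w U x * b (-j) else 0) =
        - b j ^ 2 := by
      intro j
      have e3 : ∑ x : ZMod v, (if f x = j then w U x * b (-j) else 0) = b j * b (-j) := by
        conv_rhs => rw [show b j = ∑ x, (if f x = j then w U x else 0) from rfl, Finset.sum_mul]
        refine Finset.sum_congr rfl fun x _ => ?_
        split_ifs <;> simp
      rw [e3, hb]
      ring
    rw [Finset.sum_congr rfl fun j _ => e2 j]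
    rw [show (Finset.univ : Finset (ZMod 3)) = {0, 1, 2} from rfl]
    rw [Finset.sum_insert (by decide), Finset.sum_insert (by decide), Finset.sum_singleton]
    ring
  have hS2 : ∑ x : ZMod v, ∑ y : ZMod v, (if f (x + y) = 0 then w U x * w U y else 0) =
      m - v := by
    have e1 : ∀ x : ZMod v, ∑ y : ZMod v, (if f (x + y) = 0 then w U x * w U y else 0) =
        ∑ t : ZMod v, (if f t = 0 then w U x * w U (t - x) else 0) := by
      intro x
      rw [← Equiv.sum_comp (Equiv.addLeft x)
        (fun t => if f t = 0 then w U x * w U (t - x) else 0)]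
      refine Finset.sum_congr rfl fun y _ => ?_
      simp only [Equiv.coe_addLeft, add_sub_cancel_left]
    rw [Finset.sum_congr rfl fun x _ => e1 x, Finset.sum_comm]
    have e2 : ∀ t : ZMod v, ∑ x : ZMod v, (if f t = 0 then w U x * w U (t - x) else 0) =
        (if f t = 0 then (1 : ℤ) else 0) - (if t = 0 then (v : ℤ) else 0) := by
      intro t
      by_cases ht : t = 0
      · subst ht
        simp only [map_zero, if_true]
        rw [conv_w h1 hsk h2, if_pos rfl]
      · by_cases hf : f t = 0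
        · simp only [if_pos hf, if_neg ht]
          rw [conv_w h1 hsk h2, if_neg ht]
          ring
        · simp [hf, ht]
    rw [Finset.sum_congr rfl fun t _ => e2 t, Finset.sum_sub_distrib, hcard,
      Finset.sum_ite_eq', if_pos (Finset.mem_univ _)]
  have b0 : b 0 = 0 := by
    have := hb 0
    rw [neg_zero] at this
    omega
  have b2 : b 2 = -b 1 := by
    rw [← hb 1]
    rfl
  refine ⟨b 1, ?_⟩
  have hvz : (v : ℤ) = 3 * m := by exact_mod_cast hv
  rw [hS1, b0, b2] at hS2
  nlinarith

theorem no_sq {n : ℕ} (hn : 3 ≤ n) (b : ℤ) : (2 : ℤ) ^ n - 1 ≠ 3 * b ^ 2 := by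
  intro h
  obtain ⟨k, rfl⟩ := Nat.exists_eq_add_of_le hn
  rw [pow_add] at h
  have h8 : (3 * b ^ 2) % 8 = 7 := by
    rw [← h]
    omega
  have hb : b % 8 = 0 ∨ b % 8 = 1 ∨ b % 8 = 2 ∨ b % 8 = 3 ∨ b % 8 = 4 ∨ b % 8 = 5 ∨ b % 8 = 6 ∨
      b % 8 = 7 := by omega
  rcases hb with hb | hb | hb | hb | hb | hb | hb | hb <;>
    simp [pow_two, Int.mul_emod, hb] at h8

theorem core {n : ℕ} (hn : 4 ≤ n) (hv : v = 2 ^ n - 1) (h1 : ∀ x, U x * U x = 1)
    (hsk : ∀ x, x ≠ 0 → U (-x) = -U x)
    (h2 : ∀ t : ZMod v, t ≠ 0 → ∑ x, U x * U (x + t) = -1)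
    (h3 : ∀ a b : ℕ, 0 < a → a < b → b < n →
      ∑ x, U x * U (x + (a : ZMod v)) * U (x + (b : ZMod v)) = -1) : False := by
  have h16 : 16 ≤ 2 ^ n := by
    calc 16 = 2 ^ 4 := by norm_num
      _ ≤ 2 ^ n := Nat.pow_le_pow_right (by norm_num) hn
  have hnz : ∀ k : ℕ, 0 < k → k < 15 → (k : ZMod v) ≠ 0 := by
    intro k hk0 hk e
    have := Nat.le_of_dvd hk0 ((ZMod.natCast_eq_zero_iff k v).1 e)
    omega
  have hval : ∀ x, U x = 1 ∨ U x = -1 := fun x => mul_self_eq_one_iff.1 (h1 x)
  have hq : ∀ a b : ℕ, 0 < a → a < b → b < 4 →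
      U 0 * (U a * U b - U a * U ((b - a : ℕ) : ZMod v) + U b * U ((b - a : ℕ) : ZMod v)) = -1 := by
    intro a b ha hab hb
    have e1 := rev_sum U hsk (hnz a ha (by omega)) (hnz b (by omega) (by omega)) (by
      intro e
      have h := hnz (b - a) (by omega) (by omega)
      apply h
      rw [Nat.cast_sub hab.le, e, sub_self])
    have e2 := h3 a b ha hab (by omega)
    have e3 := h3 (b - a) b (by omega) (by omega) (by omega)
    rw [Nat.cast_sub hab.le] at e3 ⊢
    rw [e2, e3] at e1
    linarith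
  have q12 := hq 1 2 (by norm_num) (by norm_num) (by norm_num)
  have q13 := hq 1 3 (by norm_num) (by norm_num) (by norm_num)
  norm_num at q12 q13
  have hodd : U 3 = U 1 := by
    rcases hval 0 with a0 | a0 <;> rcases hval 1 with a1 | a1 <;> rcases hval 2 with a2 | a2 <;>
      rcases hval 3 with a3 | a3 <;>
      (rw [a0, a1, a2] at q12; rw [a0, a1, a2, a3] at q13
       first
       | (rw [a1, a3]; done)
       | omega)
  have hmod : v % 3 = 0 ∨ v % 3 = 1 := by
    have : ∀ k : ℕ, 2 ^ k % 3 = 1 ∨ 2 ^ k % 3 = 2 := by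
      intro k
      induction k with
      | zero => simp
      | succ k ih => rw [pow_succ]; omega
    have := this n
    omega
  rcases hmod with h0 | h0
  · obtain ⟨b, hb⟩ := three_dvd h1 hsk h2 (v / 3) (by omega)
    have hvz : (v : ℤ) = 2 ^ n - 1 := by
      rw [hv, Nat.cast_sub (by omega)]
      push_cast
      ring
    exact no_sq (by omega) b (hvz ▸ hb)
  · have h := w_three h1 hsk h2 h0 (by omega)
    rw [hodd] at h
    rcases hval 1 with a | a <;> rw [a] at h <;> norm_num at h

end

end Pool.Agent.GolK
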