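import Pool.Agent.GolS.Defs
import Pool.Agent.GolK.Core

/-!
# Skew-symmetric sequences (MP_2050e9): from sequences to functions on `ZMod v`
-/

namespace Pool.Agent.GolK

open Pool.Agent.GolS

theorem sum_zmod {v : ℕ} [NeZero v] (f : ZMod v → ℤ) :
    ∑ x : ZMod v, f x = ∑ i ∈ Finset.range v, f (i : ZMod v) := by
  symm
  refine Finset.sum_nbij' (fun i => (i : ZMod v)) (fun x => x.val) ?_ ?_ ?_ ?_ ?_
  · intro i _
    exact Finset.mem_univ _
  · intro x _
    exact Finset.mem_range.2 (ZMod.val_lt x)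
  · intro i hi
    exact ZMod.val_cast_of_lt (Finset.mem_range.1 hi)
  · intro x _
    exact ZMod.natCast_zmod_val x
  · intro i _
    rfl

/-- The windows run through the nonzero words. -/
theorem sum_win {n : ℕ} {s : ℕ → ZMod 2} (hs : Span n s) (g : (Fin n → ZMod 2) → ℤ) :
    ∑ i ∈ Finset.range (2 ^ n - 1), g (fun j : Fin n => s (i + (j : ℕ))) =
      ∑ W ∈ Finset.univ.filter (fun W : Fin n → ZMod 2 => W ≠ 0), g W := by
  classical
  choose! pos hpos using fun (W : Fin n → ZMod 2) (hW : W ≠ 0) => (hs W hW).exists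
  have hne : ∀ W ∈ Finset.univ.filter (fun W : Fin n → ZMod 2 => W ≠ 0), W ≠ 0 :=
    fun W hW => (Finset.mem_filter.1 hW).2
  have hinj : Set.InjOn pos
      (Finset.univ.filter (fun W : Fin n → ZMod 2 => W ≠ 0) : Set (Fin n → ZMod 2)) := by
    intro W hW W' hW' e
    have hW1 := hne W (by exact_mod_cast hW)
    have hW2 := hne W' (by exact_mod_cast hW')
    funext j
    rw [← (hpos W hW1).2 j, ← (hpos W' hW2).2 j, e]
  have himg : (Finset.univ.filter (fun W : Fin n → ZMod 2 => W ≠ 0)).image pos =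
      Finset.range (2 ^ n - 1) := by
    apply Finset.eq_of_subset_of_card_le
    · intro i hi
      obtain ⟨W, hW, rfl⟩ := Finset.mem_image.1 hi
      exact Finset.mem_range.2 (hpos W (hne W hW)).1
    · rw [Finset.card_range, Finset.card_image_of_injOn hinj, Finset.filter_ne',
        Finset.card_erase_of_mem (Finset.mem_univ _), Finset.card_univ, Fintype.card_fun,
        ZMod.card, Fintype.card_fin]
  rw [← himg, Finset.sum_image hinj]
  refine Finset.sum_congr rfl fun W hW => ?_
  congr 1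
  funext j
  exact (hpos W (hne W hW)).2 j

theorem triple {n : ℕ} {s : ℕ → ZMod 2} (hs : Span n s) {a b : ℕ} (ha : 0 < a) (hab : a < b)
    (hb : b < n) :
    ∑ i ∈ Finset.range (2 ^ n - 1), eps (s i) * eps (s (i + a)) * eps (s (i + b)) = -1 := by
  classical
  set z : Fin n := ⟨0, by omega⟩ with hz
  set a' : Fin n := ⟨a, by omega⟩ with ha'
  set b' : Fin n := ⟨b, hb⟩ with hb'
  have h := sum_win hs (fun W => eps (W z) * eps (W a') * eps (W b'))
  have e1 : ∑ i ∈ Finset.range (2 ^ n - 1), eps (s i) * eps (s (i + a)) * eps (s (i + b)) =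
      ∑ i ∈ Finset.range (2 ^ n - 1), (fun W : Fin n → ZMod 2 =>
        eps (W z) * eps (W a') * eps (W b')) (fun j : Fin n => s (i + (j : ℕ))) := rfl
  rw [e1, h]
  have hza : a' ≠ z := by
    intro e
    rw [ha', hz, Fin.mk.injEq] at e
    omega
  have hzb : b' ≠ z := by
    intro e
    rw [hb', hz, Fin.mk.injEq] at e
    omega
  have hall : ∑ W : Fin n → ZMod 2, eps (W z) * eps (W a') * eps (W b') = 0 := by
    have e2 : ∑ W : Fin n → ZMod 2, eps (W z) * eps (W a') * eps (W b') =
        - ∑ W : Fin n → ZMod 2, eps (W z) * eps (W a') * eps (W b') := by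
      conv_lhs => rw [← Equiv.sum_comp (Equiv.addRight (Pi.single z (1 : ZMod 2)))]
      rw [← Finset.sum_neg_distrib]
      refine Finset.sum_congr rfl fun W _ => ?_
      simp only [Equiv.coe_addRight, Pi.add_apply, Pi.single_eq_same, Pi.single_eq_of_ne hza,
        Pi.single_eq_of_ne hzb, add_zero, eps_add, eps_one]
      ring
    omega
  rw [Finset.filter_ne', ← Finset.add_sum_erase _ _ (Finset.mem_univ (0 : Fin n → ZMod 2))] at *
  simp only [Pi.zero_apply, eps_zero, mul_one] at hall
  linarith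

theorem autoc {n : ℕ} (hn : 1 ≤ n) {s : ℕ → ZMod 2} (h2 : TwoLevel n s) {τ : ℕ} (h0 : 0 < τ)
    (hτ : τ < 2 ^ n - 1) :
    ∑ i ∈ Finset.range (2 ^ n - 1), eps (s i) * eps (s (i + τ)) = -1 := by
  have e1 : ∀ i, eps (s i) * eps (s (i + τ)) = 1 - 2 * (if s i ≠ s (i + τ) then 1 else 0) := by
    intro i
    generalize s i = x
    generalize s (i + τ) = y
    revert x y
    decide
  have hc := h2 τ h0 hτ
  rw [Finset.sum_congr rfl fun i _ => e1 i, Finset.sum_sub_distrib, ← Finset.mul_sum,
    Finset.sum_boole, hc]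
  simp only [Finset.sum_const, Finset.card_range, nsmul_eq_mul, mul_one]
  have h1 : 1 ≤ 2 ^ n := Nat.one_le_two_pow
  rw [Nat.cast_sub h1]
  obtain ⟨k, rfl⟩ := Nat.exists_eq_add_of_le' hn
  rw [Nat.add_sub_cancel, pow_succ]
  push_cast
  ring

/-- A two-level sequence of period `2 ^ n - 1`, `n ≥ 4`, with an anti-multiplier is not span-`n`. -/
theorem not_span {n : ℕ} (hn : 4 ≤ n) {s : ℕ → ZMod 2} (hp : Per n s) (h2 : TwoLevel n s)
    (hs : Span n s) {r c : ℕ} (hr : Nat.Coprime r (2 ^ n - 1))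
    (ha : ∀ i : ℕ, ¬ (2 ^ n - 1) ∣ i → s (c + r * i) ≠ s (c + i)) : False := by
  have h16 : 16 ≤ 2 ^ n := by
    calc 16 = 2 ^ 4 := by norm_num
      _ ≤ 2 ^ n := Nat.pow_le_pow_right (by norm_num) hn
  obtain ⟨v, hv⟩ : ∃ v, v = 2 ^ n - 1 := ⟨_, rfl⟩
  have : NeZero v := ⟨by omega⟩
  have hper : Function.Periodic s v := by
    intro i
    rw [hv]
    exact hp i
  let T : ZMod v → ZMod 2 := fun x => s x.val
  have hT : ∀ i : ℕ, T (i : ZMod v) = s i := by
    intro i
    simp only [T]
    rw [ZMod.val_natCast]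
    exact hper.map_mod_nat i
  have hneps : ∀ x y : ZMod 2, x ≠ y → eps x = - eps y := by decide
  have H2 : ∀ t : ZMod v, t ≠ 0 →
      ∑ x, eps (T ((c : ZMod v) + x)) * eps (T ((c : ZMod v) + (x + t))) = -1 := by
    intro t ht
    have h0 : 0 < t.val := by
      rcases Nat.eq_zero_or_pos t.val with h | h
      · exact absurd ((ZMod.val_eq_zero t).1 h) ht
      · exact h
    have hlt := ZMod.val_lt t
    have e1 : ∑ x : ZMod v, eps (T ((c : ZMod v) + x)) * eps (T ((c : ZMod v) + (x + t))) =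
        ∑ y : ZMod v, eps (T y) * eps (T (y + t)) := by
      rw [← Equiv.sum_comp (Equiv.addLeft (c : ZMod v)) (fun y => eps (T y) * eps (T (y + t)))]
      refine Finset.sum_congr rfl fun x _ => ?_
      simp only [Equiv.coe_addLeft, add_assoc]
    rw [e1, sum_zmod, ← autoc (by omega) h2 h0 (by omega), ← hv]
    refine Finset.sum_congr rfl fun i _ => ?_
    have e2 : T ((i : ZMod v) + t) = s (i + t.val) := by
      rw [← hT]
      push_cast
      rw [ZMod.natCast_zmod_val]
    rw [e2, hT]
  have hru : IsUnit (r : ZMod v) := (ZMod.isUnit_iff_coprime r v).2 (hv ▸ hr)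
  have hskew := skew_of_anti (v := v) (U := fun x => eps (T ((c : ZMod v) + x)))
    (fun x => eps_mul_self _) H2 hru (by
      intro x hx
      have e1 : T ((c : ZMod v) + x) = s (c + x.val) := by
        rw [← hT]
        push_cast
        rw [ZMod.natCast_zmod_val]
      have e2 : T ((c : ZMod v) + (r : ZMod v) * x) = s (c + r * x.val) := by
        rw [← hT]
        push_cast
        rw [ZMod.natCast_zmod_val]
      have h := ha x.val (by
        rw [← hv]
        intro hd
        exact hx (by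
          rw [← ZMod.natCast_zmod_val x]
          exact (ZMod.natCast_eq_zero_iff _ _).2 hd))
      change eps (T ((c : ZMod v) + (r : ZMod v) * x)) = - eps (T ((c : ZMod v) + x))
      rw [e1, e2]
      exact hneps _ _ h)
  refine core (v := v) (U := fun x => eps (T ((c : ZMod v) + x))) hn hv
    (fun x => eps_mul_self _) hskew H2 ?_
  intro a b ha hab hb
  have e1 : ∑ x : ZMod v, eps (T ((c : ZMod v) + x)) * eps (T ((c : ZMod v) + (x + a))) *
      eps (T ((c : ZMod v) + (x + b))) =
      ∑ y : ZMod v, eps (T y) * eps (T (y + a)) * eps (T (y + b)) := by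
    rw [← Equiv.sum_comp (Equiv.addLeft (c : ZMod v))
      (fun y => eps (T y) * eps (T (y + a)) * eps (T (y + b)))]
    refine Finset.sum_congr rfl fun x _ => ?_
    simp only [Equiv.coe_addLeft, add_assoc]
  rw [e1, sum_zmod, ← triple hs ha hab hb, ← hv]
  refine Finset.sum_congr rfl fun i _ => ?_
  have e2 : ∀ k : ℕ, T ((i : ZMod v) + (k : ZMod v)) = s (i + k) := by
    intro k
    rw [← hT]
    push_cast
    rfl
  rw [e2, e2, hT]

theorem win_ne {n : ℕ} {s : ℕ → ZMod 2} (hs : Span n s) {i : ℕ} (hi : i < 2 ^ n - 1) :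
    (fun j : Fin n => s (i + (j : ℕ))) ≠ 0 := by
  classical
  intro h0
  have h := sum_win hs (fun W => if W = 0 then 1 else 0)
  have e1 : ∑ W ∈ Finset.univ.filter (fun W : Fin n → ZMod 2 => W ≠ 0),
      (if W = 0 then (1 : ℤ) else 0) = 0 :=
    Finset.sum_eq_zero fun W hW => if_neg (Finset.mem_filter.1 hW).2
  rw [e1, Finset.sum_eq_zero_iff_of_nonneg (fun i _ => by split_ifs <;> norm_num)] at h
  have h1 := h i (Finset.mem_range.2 hi)
  simp only [h0, if_true] at h1
  norm_num at h1

theorem win_inj {n : ℕ} {s : ℕ → ZMod 2} (hs : Span n s) {i j : ℕ} (hi : i < 2 ^ n - 1)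
    (hj : j < 2 ^ n - 1) (h : ∀ k : Fin n, s (i + (k : ℕ)) = s (j + (k : ℕ))) : i = j := by
  obtain ⟨m, -, hm⟩ := hs _ (win_ne hs hi)
  rw [hm i ⟨hi, fun k => rfl⟩, hm j ⟨hj, fun k => (h k).symm⟩]

theorem key7 : ∀ f : ZMod 7 → ZMod 2, (∀ i : ZMod 7, ¬ (f i = 0 ∧ f (i + 1) = 0 ∧ f (i + 2) = 0)) →
    (∀ i j : ZMod 7, f i = f j → f (i + 1) = f (j + 1) → f (i + 2) = f (j + 2) → i = j) →
    (∀ i : ZMod 7, f (i + 3) = f i + f (i + 1)) ∨ (∀ i : ZMod 7, f (i + 3) = f i + f (i + 2)) := by
  decide +kernel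

theorem key3 : ∀ f : ZMod 3 → ZMod 2, (∀ i : ZMod 3, ¬ (f i = 0 ∧ f (i + 1) = 0)) →
    (∀ i j : ZMod 3, f i = f j → f (i + 1) = f (j + 1) → i = j) →
    (∀ i : ZMod 3, f (i + 2) = f i + f (i + 1)) := by
  decide +kernel

theorem small {n : ℕ} (h1 : 1 ≤ n) (h3 : n ≤ 3) {s : ℕ → ZMod 2} (hp : Per n s)
    (hs : Span n s) : MSeq n s := by
  interval_cases n
  · refine ⟨hp, hs, fun _ => 1, fun i => ?_⟩
    simp only [Finset.univ_unique, Fin.default_eq_zero, Finset.sum_singleton, one_mul]
    exact hp i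
  · refine ⟨hp, hs, fun _ => 1, ?_⟩
    have hper : Function.Periodic s 3 := fun i => hp i
    let f : ZMod 3 → ZMod 2 := fun i => s i.val
    have hf : ∀ m : ℕ, s m = f (m : ZMod 3) := by
      intro m
      simp only [f, ZMod.val_natCast]
      exact (hper.map_mod_nat m).symm
    have hf1 : ∀ (i : ZMod 3) (k : ℕ), f (i + (k : ZMod 3)) = s (i.val + k) := by
      intro i k
      rw [hf]
      congr 1
      push_cast
      rw [ZMod.natCast_zmod_val]
    have h := key3 f (fun i hi => win_ne hs (i := i.val) (ZMod.val_lt i) (by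
        funext k
        fin_cases k
        · exact hi.1
        · exact (hf1 i 1).symm.trans hi.2))
      (fun i j e0 e1 => ZMod.val_injective _ (win_inj hs (ZMod.val_lt i) (ZMod.val_lt j) (by
        intro k
        fin_cases k
        · exact e0
        · exact (hf1 i 1).symm.trans (e1.trans (hf1 j 1)))))
    intro i
    simp only [Fin.sum_univ_two, Fin.val_zero, Fin.val_one, add_zero, one_mul]
    rw [hf, hf i, hf (i + 1)]
    push_cast
    exact h i
  · have hper : Function.Periodic s 7 := fun i => hp i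
    let f : ZMod 7 → ZMod 2 := fun i => s i.val
    have hf : ∀ m : ℕ, s m = f (m : ZMod 7) := by
      intro m
      simp only [f, ZMod.val_natCast]
      exact (hper.map_mod_nat m).symm
    have hf1 : ∀ (i : ZMod 7) (k : ℕ), f (i + (k : ZMod 7)) = s (i.val + k) := by
      intro i k
      rw [hf]
      congr 1
      push_cast
      rw [ZMod.natCast_zmod_val]
    have h := key7 f (fun i hi => win_ne hs (i := i.val) (ZMod.val_lt i) (by
        funext k
        fin_cases k
        · exact hi.1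
        · exact (hf1 i 1).symm.trans hi.2.1
        · exact (hf1 i 2).symm.trans hi.2.2))
      (fun i j e0 e1 e2 => ZMod.val_injective _ (win_inj hs (ZMod.val_lt i) (ZMod.val_lt j) (by
        intro k
        fin_cases k
        · exact e0
        · exact (hf1 i 1).symm.trans (e1.trans (hf1 j 1))
        · exact (hf1 i 2).symm.trans (e2.trans (hf1 j 2)))))
    rcases h with h | h
    · refine ⟨hp, hs, ![1, 1, 0], fun i => ?_⟩
      simp only [Fin.sum_univ_three, Matrix.cons_val_zero, Matrix.cons_val_one, Matrix.cons_val,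
        Fin.val_zero, Fin.val_one, Fin.val_two, add_zero, one_mul, zero_mul]
      rw [hf, hf i, hf (i + 1)]
      push_cast
      exact h i
    · refine ⟨hp, hs, ![1, 0, 1], fun i => ?_⟩
      simp only [Fin.sum_univ_three, Matrix.cons_val_zero, Matrix.cons_val_one, Matrix.cons_val,
        Fin.val_zero, Fin.val_one, Fin.val_two, add_zero, one_mul, zero_mul]
      rw [hf, hf i, hf (i + 2)]
      push_cast
      exact h i

end Pool.Agent.GolK
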